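import Pool.Agent.helper4.QX.SpecD
import Pool.Agent.helper62.QU.All

set_option autoImplicit false

/-!
# Project QX (MP_07c750), row SEC: second order expansion of the smoothing operators
-/

open scoped MatrixGroups ContDiff Topology UpperHalfPlane
open UpperHalfPlane MeasureTheory ProbabilityTheory Filter Set Polynomial
open Pool.Agent.QU Pool.Agent.RP

namespace Pool.Agent.QX

/-- primitive of `κ₁` -/
noncomputable def SEC_Q (κ₁ : ℝ → ℝ) (t : ℝ) : ℝ := ∫ r in (0 : ℝ)..t, κ₁ r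

theorem SEC_Qcont (κ₁ : ℝ → ℝ) (h : Continuous κ₁) : Continuous (SEC_Q κ₁) := by
  rw [continuous_iff_continuousAt]
  intro t
  exact (h.integral_hasStrictDerivAt 0 t).hasDerivAt.continuousAt

theorem SEC_Qmono (κ₁ : ℝ → ℝ) (h : Continuous κ₁) (hn : ∀ t, 0 ≤ κ₁ t) {a b : ℝ} (hab : a ≤ b) :
    SEC_Q κ₁ a ≤ SEC_Q κ₁ b := by
  have hint : ∀ a b, IntervalIntegrable κ₁ volume a b := fun a b => h.intervalIntegrable a b
  unfold SEC_Q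
  rw [← intervalIntegral.integral_add_adjacent_intervals (hint 0 a) (hint a b)]
  have := intervalIntegral.integral_nonneg (f := κ₁) (μ := volume) hab (fun u _ => hn u)
  linarith

theorem SEC_Q0 (κ₁ : ℝ → ℝ) : SEC_Q κ₁ 0 = 0 := by
  unfold SEC_Q
  rw [intervalIntegral.integral_same]

theorem SEC_Qbig (κ₁ : ℝ → ℝ) (h : Continuous κ₁) (hz : ∀ t, 1 ≤ t → κ₁ t = 0) (t : ℝ)
    (ht : 1 ≤ t) : SEC_Q κ₁ t = SEC_Q κ₁ 1 := by
  have hint : ∀ a b, IntervalIntegrable κ₁ volume a b := fun a b => h.intervalIntegrable a b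
  unfold SEC_Q
  rw [← intervalIntegral.integral_add_adjacent_intervals (hint 0 1) (hint 1 t)]
  have h3 : ∫ r in (1 : ℝ)..t, κ₁ r = ∫ r in (1 : ℝ)..t, (0 : ℝ) := by
    refine intervalIntegral.integral_congr fun r hr => ?_
    rw [uIcc_of_le ht] at hr
    exact hz r hr.1
  rw [h3, intervalIntegral.integral_zero, add_zero]

theorem SEC_fint (κ₁ : ℝ → ℝ) (η : ℝ) (hη : 0 < η) (t : ℝ) :
    ∫ r in (0 : ℝ)..t, fm κ₁ η r = SEC_Q κ₁ (t / η) := by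
  have h : ∀ r, fm κ₁ η r = κ₁ (r / η) / η := fun r => rfl
  simp only [h]
  rw [intervalIntegral.integral_div, intervalIntegral.integral_comp_div κ₁ hη.ne', zero_div,
    smul_eq_mul, mul_div_assoc, mul_comm, div_mul_cancel₀ _ hη.ne']
  rfl

theorem SEC_ode (ψ θ : ℝ → ℝ) (s : ℝ) (hs : 0 < s) (hψ : ContDiff ℝ ∞ ψ) (hψs : ψ s = 0)
    (hL : ∀ t, 0 ≤ t → LL ψ t = -θ t) :
    ∫ t in (0 : ℝ)..s, ψ t = -∫ t in (0 : ℝ)..s, (∫ r in (0 : ℝ)..t, θ r) / (t + 2) := by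
  obtain ⟨hd, hψ'⟩ := contDiff_infty_iff_deriv.1 hψ
  obtain ⟨hd', hψ''⟩ := contDiff_infty_iff_deriv.1 hψ'
  have c1 : Continuous (deriv ψ) := hψ'.continuous
  have c2 : Continuous (deriv (deriv ψ)) := hψ''.continuous
  have h1 : ∀ t, 0 ≤ t → ∫ r in (0 : ℝ)..t, θ r = t * (t + 2) * deriv ψ t := by
    intro t ht
    have e : ∫ r in (0 : ℝ)..t, θ r =
        ∫ r in (0 : ℝ)..t, ((2 * r + 2) * deriv ψ r + r * (r + 2) * deriv (deriv ψ) r) := by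
      refine intervalIntegral.integral_congr fun r hr => ?_
      rw [uIcc_of_le ht] at hr
      have := hL r hr.1
      unfold LL at this
      show θ r = _
      linarith
    rw [e, intervalIntegral.integral_eq_sub_of_hasDerivAt (f := fun r => r * (r + 2) * deriv ψ r)]
    · simp
    · intro r _
      have a1 : HasDerivAt (fun r : ℝ => r * (r + 2)) (2 * r + 2) r := by
        have a2 : HasDerivAt (fun r : ℝ => r ^ 2 + 2 * r) (2 * r + 2) r := by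
          have a3 := (hasDerivAt_pow 2 r).add ((hasDerivAt_id r).const_mul 2)
          have a4 : (2 : ℝ) * r + 2 = ((2 : ℕ) : ℝ) * r ^ (2 - 1) + 2 * 1 := by norm_num
          rw [a4]
          exact a3
        have a5 : (fun r : ℝ => r * (r + 2)) = fun r : ℝ => r ^ 2 + 2 * r := by
          funext r; ring
        rw [a5]; exact a2
      exact a1.mul (hd' r).hasDerivAt
    · apply Continuous.intervalIntegrable
      fun_prop
  have h2 : ∫ t in (0 : ℝ)..s, (1 * ψ t + t * deriv ψ t) = 0 := by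
    rw [intervalIntegral.integral_eq_sub_of_hasDerivAt (f := fun r => r * ψ r)]
    · simp [hψs]
    · intro r _
      exact (hasDerivAt_id r).mul (hd r).hasDerivAt
    · apply Continuous.intervalIntegrable
      have := hd.continuous
      fun_prop
  rw [intervalIntegral.integral_add] at h2
  · have h3 : ∫ t in (0 : ℝ)..s, t * deriv ψ t =
        ∫ t in (0 : ℝ)..s, (∫ r in (0 : ℝ)..t, θ r) / (t + 2) := by
      refine intervalIntegral.integral_congr fun t ht => ?_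
      rw [uIcc_of_le hs.le] at ht
      show t * deriv ψ t = (∫ r in (0 : ℝ)..t, θ r) / (t + 2)
      rw [h1 t ht.1, eq_div_iff (by linarith [ht.1])]
      ring
    rw [h3] at h2
    have h4 : ∫ t in (0 : ℝ)..s, 1 * ψ t = ∫ t in (0 : ℝ)..s, ψ t := by
      simp only [one_mul]
    rw [h4] at h2
    linarith
  · apply Continuous.intervalIntegrable
    have := hd.continuous
    fun_prop
  · apply Continuous.intervalIntegrable
    fun_prop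

/-- the limit of the masses -/
noncomputable def SEC_ct (κ₁ : ℝ → ℝ) (c₀ τ : ℝ) : ℝ :=
  c₀ * ∫ r in (0 : ℝ)..τ, (1 / c₀ - SEC_Q κ₁ (r / τ)) / (r + 2)

theorem SEC_ii (g : ℝ → ℝ) (hg : Continuous g) (a b : ℝ) (ha : 0 ≤ a) (hab : a ≤ b) :
    IntervalIntegrable (fun r => g r / (r + 2)) volume a b := by
  apply ContinuousOn.intervalIntegrable
  intro r hr
  rw [uIcc_of_le hab] at hr
  have h : r + 2 ≠ 0 := by
    have := hr.1
    linarith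
  have h2 : ContinuousAt (fun r : ℝ => r + 2) r := by fun_prop
  exact (hg.continuousAt.div h2 h).continuousWithinAt

theorem SEC_ctle (κ₁ : ℝ → ℝ) (c₀ τ : ℝ) (hc₀ : 0 < c₀) (hτ : 0 < τ) (hc : Continuous κ₁)
    (hn : ∀ t, 0 ≤ κ₁ t) : SEC_ct κ₁ c₀ τ ≤ τ / 2 := by
  have hQc := SEC_Qcont κ₁ hc
  have h1 : ∫ r in (0 : ℝ)..τ, (1 / c₀ - SEC_Q κ₁ (r / τ)) / (r + 2) ≤
      ∫ _r in (0 : ℝ)..τ, (1 / c₀) / 2 := by
    apply intervalIntegral.integral_mono_on hτ.le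
    · exact SEC_ii (fun r => 1 / c₀ - SEC_Q κ₁ (r / τ)) (by fun_prop) 0 τ le_rfl hτ.le
    · exact intervalIntegrable_const
    · intro r hr
      have h2 : 0 ≤ SEC_Q κ₁ (r / τ) := by
        rw [← SEC_Q0 κ₁]
        exact SEC_Qmono κ₁ hc hn (div_nonneg hr.1 hτ.le)
      have h3 : 0 < 1 / c₀ := by positivity
      rw [div_le_div_iff₀ (by linarith [hr.1]) two_pos]
      nlinarith [hr.1, mul_nonneg h3.le hr.1]
  rw [intervalIntegral.integral_const] at h1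
  unfold SEC_ct
  calc c₀ * ∫ r in (0 : ℝ)..τ, (1 / c₀ - SEC_Q κ₁ (r / τ)) / (r + 2)
      ≤ c₀ * ((τ - 0) • (1 / c₀ / 2)) := mul_le_mul_of_nonneg_left h1 hc₀.le
    _ = τ / 2 := by
      rw [smul_eq_mul]
      field_simp
      ring

theorem SEC_ctge (κ₁ : ℝ → ℝ) (c₀ τ : ℝ) (hc₀ : 0 < c₀) (hτ : 0 < τ) (hτ1 : τ ≤ 1)
    (hc : Continuous κ₁) (hn : ∀ t, 0 ≤ κ₁ t) (hq : SEC_Q κ₁ 1 = 1 / c₀) :
    c₀ / 3 * (∫ x in (0 : ℝ)..1, (1 / c₀ - SEC_Q κ₁ x)) * τ ≤ SEC_ct κ₁ c₀ τ := by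
  have hQc := SEC_Qcont κ₁ hc
  have h1 : ∫ r in (0 : ℝ)..τ, (1 / c₀ - SEC_Q κ₁ (r / τ)) / 3 ≤
      ∫ r in (0 : ℝ)..τ, (1 / c₀ - SEC_Q κ₁ (r / τ)) / (r + 2) := by
    apply intervalIntegral.integral_mono_on hτ.le
    · apply Continuous.intervalIntegrable
      fun_prop
    · exact SEC_ii (fun r => 1 / c₀ - SEC_Q κ₁ (r / τ)) (by fun_prop) 0 τ le_rfl hτ.le
    · intro r hr
      have h2 : SEC_Q κ₁ (r / τ) ≤ 1 / c₀ := by
        rw [← hq]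
        exact SEC_Qmono κ₁ hc hn (by rw [div_le_one hτ]; exact hr.2)
      have h4 : r ≤ 1 := le_trans hr.2 hτ1
      exact div_le_div_of_nonneg_left (by linarith) (by linarith [hr.1]) (by linarith)
  rw [intervalIntegral.integral_div,
    intervalIntegral.integral_comp_div (fun x => 1 / c₀ - SEC_Q κ₁ x) hτ.ne', zero_div,
    div_self hτ.ne', smul_eq_mul] at h1
  unfold SEC_ct
  calc c₀ / 3 * (∫ x in (0 : ℝ)..1, (1 / c₀ - SEC_Q κ₁ x)) * τ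
      = c₀ * (τ * (∫ x in (0 : ℝ)..1, (1 / c₀ - SEC_Q κ₁ x)) / 3) := by ring
    _ ≤ _ := mul_le_mul_of_nonneg_left h1 hc₀.le

theorem SEC_ipos (κ₁ : ℝ → ℝ) (c₀ : ℝ) (hc₀ : 0 < c₀)
    (hc : Continuous κ₁) (hn : ∀ t, 0 ≤ κ₁ t) (hq : SEC_Q κ₁ 1 = 1 / c₀) :
    0 < ∫ x in (0 : ℝ)..1, (1 / c₀ - SEC_Q κ₁ x) := by
  have hQc := SEC_Qcont κ₁ hc
  apply intervalIntegral.integral_pos one_pos
  · apply Continuous.continuousOn
    fun_prop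
  · intro x hx
    have := SEC_Qmono κ₁ hc hn hx.2
    rw [hq] at this
    linarith
  · refine ⟨0, ⟨le_rfl, zero_le_one⟩, ?_⟩
    rw [SEC_Q0, sub_zero]
    positivity

/-- the mass of `ψ` differs from `ct τ` by at most `τ' / 2` -/
theorem SEC_diff (κ₁ : ℝ → ℝ) (c₀ τ τ' : ℝ) (hc₀ : 0 < c₀) (hτ' : 0 < τ') (hτ : τ' ≤ τ)
    (hc : Continuous κ₁) (hn : ∀ t, 0 ≤ κ₁ t) (hz : ∀ t, 1 ≤ t → κ₁ t = 0)
    (hq : SEC_Q κ₁ 1 = 1 / c₀) (ψ : ℝ → ℝ) (hψ : ContDiff ℝ ∞ ψ) (hψs : ∀ t, τ ≤ t → ψ t = 0)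
    (hL : ∀ t, 0 ≤ t → LL ψ t = -(fm κ₁ τ t - fm κ₁ τ' t)) :
    c₀ * (∫ t in (0 : ℝ)..τ, ψ t) ≤ SEC_ct κ₁ c₀ τ ∧
    SEC_ct κ₁ c₀ τ ≤ c₀ * (∫ t in (0 : ℝ)..τ, ψ t) + τ' / 2 := by
  have hQc := SEC_Qcont κ₁ hc
  have hτ0 : 0 < τ := lt_of_lt_of_le hτ' hτ
  have hfc : ∀ η, Continuous (fm κ₁ η) := by
    intro η
    have : fm κ₁ η = fun t => κ₁ (t / η) / η := rfl
    rw [this]
    fun_prop
  have h1 := SEC_ode ψ (fun t => fm κ₁ τ t - fm κ₁ τ' t) τ hτ0 hψ (hψs τ le_rfl) hL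
  have h2 : ∀ t, ∫ r in (0 : ℝ)..t, (fm κ₁ τ r - fm κ₁ τ' r) =
      SEC_Q κ₁ (t / τ) - SEC_Q κ₁ (t / τ') := by
    intro t
    rw [intervalIntegral.integral_sub ((hfc τ).intervalIntegrable _ _)
      ((hfc τ').intervalIntegrable _ _), SEC_fint κ₁ τ hτ0, SEC_fint κ₁ τ' hτ']
  have h3 : ∫ t in (0 : ℝ)..τ, (∫ r in (0 : ℝ)..t, (fm κ₁ τ r - fm κ₁ τ' r)) / (t + 2) =
      ∫ t in (0 : ℝ)..τ, ((1 / c₀ - SEC_Q κ₁ (t / τ')) / (t + 2) -
        (1 / c₀ - SEC_Q κ₁ (t / τ)) / (t + 2)) := by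
    refine intervalIntegral.integral_congr fun t _ => ?_
    show (∫ r in (0 : ℝ)..t, (fm κ₁ τ r - fm κ₁ τ' r)) / (t + 2) = _
    rw [h2]
    ring
  have i1 : ∀ a b, 0 ≤ a → a ≤ b →
      IntervalIntegrable (fun t => (1 / c₀ - SEC_Q κ₁ (t / τ')) / (t + 2)) volume a b :=
    fun a b ha hab => SEC_ii (fun t => 1 / c₀ - SEC_Q κ₁ (t / τ')) (by fun_prop) a b ha hab
  have i2 : IntervalIntegrable (fun t => (1 / c₀ - SEC_Q κ₁ (t / τ)) / (t + 2)) volume 0 τ :=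
    SEC_ii (fun t => 1 / c₀ - SEC_Q κ₁ (t / τ)) (by fun_prop) 0 τ le_rfl hτ0.le
  have h4 : ∫ t in (0 : ℝ)..τ, (1 / c₀ - SEC_Q κ₁ (t / τ')) / (t + 2) =
      ∫ t in (0 : ℝ)..τ', (1 / c₀ - SEC_Q κ₁ (t / τ')) / (t + 2) := by
    rw [← intervalIntegral.integral_add_adjacent_intervals (i1 0 τ' le_rfl hτ'.le)
      (i1 τ' τ hτ'.le hτ)]
    have h5 : ∫ t in τ'..τ, (1 / c₀ - SEC_Q κ₁ (t / τ')) / (t + 2) = ∫ _t in τ'..τ, (0 : ℝ) := by
      refine intervalIntegral.integral_congr fun t ht => ?_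
      rw [uIcc_of_le hτ] at ht
      show (1 / c₀ - SEC_Q κ₁ (t / τ')) / (t + 2) = 0
      rw [SEC_Qbig κ₁ hc hz _ ((one_le_div hτ').2 ht.1), hq, sub_self, zero_div]
    rw [h5, intervalIntegral.integral_zero, add_zero]
  have h6 : 0 ≤ ∫ t in (0 : ℝ)..τ', (1 / c₀ - SEC_Q κ₁ (t / τ')) / (t + 2) := by
    apply intervalIntegral.integral_nonneg hτ'.le
    intro t ht
    have h7 := SEC_Qmono κ₁ hc hn (a := t / τ') (b := 1) (by rw [div_le_one hτ']; exact ht.2)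
    rw [hq] at h7
    exact div_nonneg (by linarith) (by linarith [ht.1])
  have h8 : c₀ * (∫ t in (0 : ℝ)..τ', (1 / c₀ - SEC_Q κ₁ (t / τ')) / (t + 2)) ≤ τ' / 2 :=
    SEC_ctle κ₁ c₀ τ' hc₀ hτ' hc hn
  rw [h1, h3, intervalIntegral.integral_sub (i1 0 τ le_rfl hτ0.le) i2, h4]
  unfold SEC_ct
  have h9 := mul_nonneg hc₀.le h6
  constructor <;> nlinarith

theorem SEC_eqv (Γ : Subgroup SL(2, ℝ)) (V : Type) [NormedAddCommGroup V] [InnerProductSpace ℂ V]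
    [CompleteSpace V] (ρ : Γ →* (V ≃ₗᵢ[ℂ] V)) (fam : ℝ → ℝ → ℝ) (hfam : Fam fam) (φ : ℍ → V)
    (hφ : CD 2 φ) (hl : Continuous (lap φ)) (heq : ∀ (γ : Γ) (z : ℍ), φ (γ • z) = ρ γ (φ z))
    (γ : Γ) (z : ℍ) : lap φ (γ • z) = ρ γ (lap φ z) := by
  rw [← sub_eq_zero, ← norm_le_zero_iff]
  apply le_of_forall_pos_le_add
  intro ε hε
  obtain ⟨η₀, hη₀, hap⟩ := (A_APX fam hfam).1 V (lap φ) hl {z, γ • z}
    (Set.toFinite _).isCompact (ε / 2) (half_pos hε)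
  have a1 := hap η₀ hη₀ le_rfl z (by simp)
  have a2 := hap η₀ hη₀ le_rfl (γ • z) (by simp)
  have a3 : conv (fam η₀) (lap φ) (γ • z) = ρ γ (conv (fam η₀) (lap φ) z) := by
    rw [A_COM V (fam η₀) φ (hfam.rk η₀ hη₀) hφ, A_COM V (fam η₀) φ (hfam.rk η₀ hη₀) hφ]
    exact A_EQV Γ V ρ (LL (fam η₀)) φ heq γ z
  have a4 : lap φ (γ • z) - ρ γ (lap φ z) = ρ γ (conv (fam η₀) (lap φ) z - lap φ z) -
      (conv (fam η₀) (lap φ) (γ • z) - lap φ (γ • z)) := by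
    rw [map_sub, a3]; abel
  rw [a4]
  calc ‖ρ γ (conv (fam η₀) (lap φ) z - lap φ z) -
      (conv (fam η₀) (lap φ) (γ • z) - lap φ (γ • z))‖
      ≤ ‖ρ γ (conv (fam η₀) (lap φ) z - lap φ z)‖ +
        ‖conv (fam η₀) (lap φ) (γ • z) - lap φ (γ • z)‖ := norm_sub_le _ _
    _ ≤ 0 + ε := by
      rw [LinearIsometryEquiv.norm_map]
      linarith

theorem SEC (hGKL : GKL_stmt) : SEC_stmt := by
  intro κ₁ C hBF
  obtain ⟨c₀, hc₀, hmas⟩ := A_MAS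
  have hc : Continuous κ₁ := hBF.smooth.continuous
  have hn := hBF.nonneg
  have hz := hBF.supp
  have hfam := hBF.fam
  have hq : SEC_Q κ₁ 1 = 1 / c₀ := by
    have h1 := hfam.mass 1 one_pos UpperHalfPlane.I
    have h2 := hmas (fm κ₁ 1) 1 (hfam.rk 1 one_pos).smooth one_pos (hfam.supp 1 one_pos)
      UpperHalfPlane.I
    rw [h1, SEC_fint κ₁ 1 one_pos, div_one] at h2
    rw [eq_div_iff hc₀.ne', mul_comm]
    exact h2.symm
  refine ⟨c₀ / 3 * (∫ x in (0 : ℝ)..1, (1 / c₀ - SEC_Q κ₁ x)), SEC_ct κ₁ c₀,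
    mul_pos (by positivity) (SEC_ipos κ₁ c₀ hc₀ hc hn hq), ?_⟩
  intro τ hτ hτ1
  have hct1 := SEC_ctle κ₁ c₀ τ hc₀ hτ hc hn
  refine ⟨SEC_ctge κ₁ c₀ τ hc₀ hτ hτ1 hc hn hq, hct1, ?_⟩
  intro Γ F V _ _ _ ρ φ hΓ hF hsec hφ hlφ
  have hφc : Continuous φ := hsec.cont
  have hlc : Continuous (lap φ) := ((A_CA1 V).1 (lap φ)).1 ((A_CA1 V).2.1 (lap φ) 0 2 zero_le hlφ)
  have hlsec : SecC ρ (lap φ) := ⟨hlc, SEC_eqv Γ V ρ (fm κ₁) hfam φ hφ hlc hsec.eqv⟩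
  obtain ⟨K, hK, hFK⟩ := hF.rel
  obtain ⟨-, -, -, hfin, -, -⟩ := A_DOB Γ F hΓ hF
  obtain ⟨-, -, c3, c4, -, c6, -, -⟩ := A_CVB V
  obtain ⟨B, hB⟩ := hK.exists_bound_of_continuousOn hlc.continuousOn
  have hM : 0 ≤ (τ ^ 2 / 4) ^ 2 * ∫ z in F, ‖lap (lap φ) z‖ ^ 2 :=
    mul_nonneg (sq_nonneg _) (integral_nonneg fun z => sq_nonneg _)
  apply EIG_lim _ _ (volume F).toReal hM ENNReal.toReal_nonneg
  intro ε hε
  obtain ⟨η₀, hη₀, hap⟩ := (A_APX (fm κ₁) hfam).1 V φ hφc K hK (ε / 2) (half_pos hε)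
  obtain ⟨τ', hτ', hle, hle', hle''⟩ : ∃ τ' : ℝ, 0 < τ' ∧ τ' ≤ τ ∧ τ' ≤ η₀ ∧
      τ' ≤ ε / (|B| + 1) := by
    refine ⟨min (min τ η₀) (ε / (|B| + 1)), lt_min (lt_min hτ hη₀) (by positivity), ?_, ?_, ?_⟩
    · exact le_trans (min_le_left _ _) (min_le_left _ _)
    · exact le_trans (min_le_left _ _) (min_le_right _ _)
    · exact min_le_right _ _
  have hkτ : RK (fm κ₁ τ) := hfam.rk τ hτ
  have hkτ' : RK (fm κ₁ τ') := hfam.rk τ' hτ'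
  have hfi : ∀ t, IntervalIntegrable (fm κ₁ τ) volume 0 t :=
    fun t => hkτ.smooth.continuous.intervalIntegrable _ _
  have hfi' : ∀ t, IntervalIntegrable (fm κ₁ τ') volume 0 t :=
    fun t => hkτ'.smooth.continuous.intervalIntegrable _ _
  have hθ : ∀ t, ∫ r in (0 : ℝ)..t, (fm κ₁ τ r - fm κ₁ τ' r) =
      SEC_Q κ₁ (t / τ) - SEC_Q κ₁ (t / τ') := by
    intro t
    rw [intervalIntegral.integral_sub (hfi t) (hfi' t), SEC_fint κ₁ τ hτ, SEC_fint κ₁ τ' hτ']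
  obtain ⟨ψ, hψ, hψs, hψL, hψc⟩ := A_ROD (fun t => fm κ₁ τ t - fm κ₁ τ' t) τ
    (hkτ.smooth.sub hkτ'.smooth) hτ (fun t ht => by
      show fm κ₁ τ t - fm κ₁ τ' t = 0
      rw [hfam.supp τ hτ t ht, hfam.supp τ' hτ' t (hle.trans ht), sub_zero]) (by
      rw [hθ, div_self hτ.ne', SEC_Qbig κ₁ hc hz _ ((one_le_div hτ').2 hle), sub_self])
  obtain ⟨hψ0, -⟩ := hψc (1 / c₀) (fun t ht => by
    rw [hθ]
    have ha : 0 ≤ t / τ := div_nonneg ht hτ.le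
    have hab : t / τ ≤ t / τ' := div_le_div_of_nonneg_left ht hτ' hle
    have b1 := SEC_Qmono κ₁ hc hn hab
    have b2 := SEC_Qmono κ₁ hc hn ha
    rw [SEC_Q0] at b2
    have b3 : SEC_Q κ₁ (t / τ') ≤ 1 / c₀ := by
      rcases le_total (t / τ') 1 with h | h
      · rw [← hq]; exact SEC_Qmono κ₁ hc hn h
      · rw [SEC_Qbig κ₁ hc hz _ h, hq]
    constructor <;> linarith)
  obtain ⟨d1, d2⟩ := SEC_diff κ₁ c₀ τ τ' hc₀ hτ' hle hc hn hz hq ψ hψ.smooth hψs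
    (fun t ht => hψL t ht)
  obtain ⟨m, hm⟩ : ∃ m : ℝ, m = c₀ * ∫ t in (0 : ℝ)..τ, ψ t := ⟨_, rfl⟩
  rw [← hm] at d1 d2
  have hm0 : 0 ≤ m := by
    rw [hm]
    exact mul_nonneg hc₀.le (intervalIntegral.integral_nonneg hτ.le fun t ht => hψ0 t ht.1)
  have hmass : ∀ z : ℍ, ∫ w : ℍ, ψ (tt z w) = m := by
    intro z
    rw [hm]
    exact hmas ψ τ hψ.smooth hτ hψs z
  have e1 : ∀ z, conv ψ (lap φ) z = conv (fm κ₁ τ') φ z - conv (fm κ₁ τ) φ z := by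
    intro z
    have a1 := c3 (fm κ₁ τ') (fm κ₁ τ) φ 1 (-1) z hkτ' hkτ hφc
    have a2 := c4 (LL ψ) (fun t => 1 * fm κ₁ τ' t + (-1) * fm κ₁ τ t) φ z
      (fun t ht => by rw [hψL t ht]; ring)
    have a3 := A_COM V ψ φ hψ hφ z
    rw [a3, a2, a1, one_smul, neg_one_smul, sub_eq_add_neg]
  have e2 : ∀ z ∈ F, ‖φ z - conv (fm κ₁ τ) φ z - SEC_ct κ₁ c₀ τ • lap φ z‖ ^ 2 ≤
      (1 + ε) * ‖conv ψ (lap φ) z - m • lap φ z‖ ^ 2 + (ε ^ 2 + ε) := by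
    intro z hz
    have b1 := hap τ' hτ' hle' z (hFK hz)
    have b2 : φ z - conv (fm κ₁ τ) φ z - SEC_ct κ₁ c₀ τ • lap φ z =
        (conv ψ (lap φ) z - m • lap φ z) - (conv (fm κ₁ τ') φ z - φ z) -
          (SEC_ct κ₁ c₀ τ - m) • lap φ z := by
      rw [e1, sub_smul]
      abel
    have b3 : ‖(SEC_ct κ₁ c₀ τ - m) • lap φ z‖ ≤ ε / 2 := by
      rw [norm_smul, Real.norm_eq_abs, abs_of_nonneg (by linarith)]
      have b4 : ‖lap φ z‖ ≤ |B| + 1 := by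
        have := hB z (hFK hz)
        linarith [le_abs_self B]
      have b5 : 0 < |B| + 1 := by positivity
      calc (SEC_ct κ₁ c₀ τ - m) * ‖lap φ z‖ ≤ (ε / (|B| + 1) / 2) * (|B| + 1) :=
            mul_le_mul (by linarith) b4 (norm_nonneg _) (by positivity)
        _ = ε / 2 := by field_simp
    have b6 : ‖φ z - conv (fm κ₁ τ) φ z - SEC_ct κ₁ c₀ τ • lap φ z‖ ≤
        ‖conv ψ (lap φ) z - m • lap φ z‖ + ε := by
      rw [b2]
      have b7 := norm_sub_le ((conv ψ (lap φ) z - m • lap φ z) - (conv (fm κ₁ τ') φ z - φ z))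
        ((SEC_ct κ₁ c₀ τ - m) • lap φ z)
      have b8 := norm_sub_le (conv ψ (lap φ) z - m • lap φ z) (conv (fm κ₁ τ') φ z - φ z)
      linarith
    exact EIG_sq _ _ ε (norm_nonneg _) b6 hε
  have hcc : Continuous fun z => φ z - conv (fm κ₁ τ) φ z - SEC_ct κ₁ c₀ τ • lap φ z :=
    (hφc.sub (c6 _ φ hkτ hφc)).sub (hlc.const_smul _)
  have hcc2 : Continuous fun z => conv ψ (lap φ) z - m • lap φ z :=
    (c6 _ _ hψ hlc).sub (hlc.const_smul _)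
  have i1 : IntegrableOn (fun z => ‖φ z - conv (fm κ₁ τ) φ z - SEC_ct κ₁ c₀ τ • lap φ z‖ ^ 2)
      F volume := EIG_int hK hFK hF.meas hfin _ (hcc.norm.pow 2)
  have i2 : IntegrableOn (fun z => (1 + ε) * ‖conv ψ (lap φ) z - m • lap φ z‖ ^ 2) F volume :=
    EIG_int hK hFK hF.meas hfin _ (continuous_const.mul (hcc2.norm.pow 2))
  have i3 : IntegrableOn (fun _ : ℍ => ε ^ 2 + ε) F volume :=
    EIG_int hK hFK hF.meas hfin _ continuous_const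
  have e3 := hGKL κ₁ C hBF Γ F V ρ ψ (lap φ) m τ hΓ hF hτ hψ hψ0 hψs hmass hlsec hlφ
  have e4 : (m * τ / 2) ^ 2 ≤ (τ ^ 2 / 4) ^ 2 := by
    apply pow_le_pow_left₀ (by positivity)
    nlinarith
  have e5 : ∫ z in F, ‖conv ψ (lap φ) z - m • lap φ z‖ ^ 2 ≤
      (τ ^ 2 / 4) ^ 2 * ∫ z in F, ‖lap (lap φ) z‖ ^ 2 :=
    le_trans e3 (mul_le_mul_of_nonneg_right e4 (integral_nonneg fun z => sq_nonneg _))
  calc ∫ z in F, ‖φ z - conv (fm κ₁ τ) φ z - SEC_ct κ₁ c₀ τ • lap φ z‖ ^ 2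
      ≤ ∫ z in F, ((1 + ε) * ‖conv ψ (lap φ) z - m • lap φ z‖ ^ 2 + (ε ^ 2 + ε)) :=
        setIntegral_mono_on i1 (i2.add i3) hF.meas e2
    _ = (1 + ε) * (∫ z in F, ‖conv ψ (lap φ) z - m • lap φ z‖ ^ 2) +
        (ε ^ 2 + ε) * (volume F).toReal := by
        rw [integral_add i2 i3, integral_const_mul, setIntegral_const,
          smul_eq_mul, mul_comm (ε ^ 2 + ε)]
        rfl
    _ ≤ (1 + ε) * ((τ ^ 2 / 4) ^ 2 * ∫ z in F, ‖lap (lap φ) z‖ ^ 2) +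
        (ε ^ 2 + ε) * (volume F).toReal := by
        have := mul_le_mul_of_nonneg_left e5 (by linarith : (0 : ℝ) ≤ 1 + ε)
        linarith

end Pool.Agent.QX
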