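import Pool.Agent.helper4.QX.SpecD
import Pool.Agent.helper59.QU.SCM
import Pool.Agent.helper72.RP.ADJ
import Pool.Agent.helper28.L1.Reg

set_option autoImplicit false

/-!
# Project QX (MP_07c750), row UTR: universal bounds and the regular representation
-/

open scoped MatrixGroups ContDiff Topology UpperHalfPlane
open UpperHalfPlane MeasureTheory ProbabilityTheory Filter Set Polynomial
open Pool.Agent.QU Pool.Agent.RP

namespace Pool.Agent.QX

section reg

/-- the left regular representation -/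
noncomputable def UTR_reg (G : Type) [Group G] : G →* (L1G.L2 G ≃ₗᵢ[ℂ] L1G.L2 G) where
  toFun g := ⟨LinearEquiv.ofLinearMap (L1G.tr g).toLinearMap (L1G.tr g⁻¹).toLinearMap
    (by ext f x; simp) (by ext f x; simp), fun f => (L1G.tr g).norm_map f⟩
  map_one' := by
    ext f x
    show f (1⁻¹ * x) = f x
    rw [inv_one, one_mul]
  map_mul' g h := by
    ext f x
    show f ((g * h)⁻¹ * x) = f (h⁻¹ * (g⁻¹ * x))
    rw [mul_inv_rev, mul_assoc]

variable {G : Type} [Group G]

theorem UTR_reg_apply (g : G) (f : L1G.L2 G) (x : G) : UTR_reg G g f x = f (g⁻¹ * x) := rfl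

/-- elements of the group algebra as vectors -/
noncomputable def UTR_vec (e : MonoidAlgebra ℂ G) : L1G.L2 G := ⟨fun x => e.coeff x, by
  apply memℓp_gen
  refine summable_of_ne_finset_zero (s := e.coeff.support) fun x hx => ?_
  rw [Finsupp.notMem_support_iff.1 hx]
  simp⟩

omit [Group G] in
theorem UTR_vec_apply (e : MonoidAlgebra ℂ G) (x : G) : UTR_vec e x = e.coeff x := rfl

theorem UTR_inner (e f : MonoidAlgebra ℂ G) : inner ℂ (UTR_vec e) (UTR_vec f) = ip e f := by
  rw [lp.inner_eq_tsum, tsum_eq_sum (s := e.coeff.support)]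
  · refine Finset.sum_congr rfl fun x _ => ?_
    rw [UTR_vec_apply, UTR_vec_apply, RCLike.inner_apply, mul_comm]
    rfl
  · intro x hx
    rw [UTR_vec_apply, Finsupp.notMem_support_iff.1 hx, inner_zero_left]

theorem UTR_norm (e : MonoidAlgebra ℂ G) : ‖UTR_vec e‖ ^ 2 = l2 e ^ 2 := by
  rw [SCM_l2_sq, ← UTR_inner, inner_self_eq_norm_sq_to_K]
  have h : ((‖UTR_vec e‖ : ℂ) ^ 2) = ((‖UTR_vec e‖ ^ 2 : ℝ) : ℂ) := by push_cast; rfl
  exact (congrArg Complex.re h).symm

theorem UTR_rep (a e : MonoidAlgebra ℂ G) : rep (UTR_reg G) a (UTR_vec e) = UTR_vec (a * e) := by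
  rw [SCM_rep_apply]
  ext x
  rw [lp.coeFn_sum, Finset.sum_apply, UTR_vec_apply]
  conv_rhs => rw [SCM_mul_expand, MonoidAlgebra.coeff_sum, Finsupp.finsetSum_apply]
  refine Finset.sum_congr rfl fun γ _ => ?_
  rw [MonoidAlgebra.coeff_smul, Finsupp.smul_apply, SCM_trans, lp.coeFn_smul, Pi.smul_apply,
    UTR_reg_apply, UTR_vec_apply]

/-- the entries of `P` -/
def UTR_m {D : ℕ} (P : Mat D G) : Fin D → Fin D → MonoidAlgebra ℂ G := fun i j => P i j

theorem UTR_P {D : ℕ} (P : Mat D G) (K : ℝ) : P + K • (1 : Mat D G) = SCM_P (UTR_m P) K := by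
  classical
  ext1 i j
  unfold SCM_P UTR_m
  rw [Matrix.add_apply, Matrix.smul_apply]
  congr 1
  by_cases h : i = j
  · rw [h, Matrix.one_apply_eq, if_pos rfl]
    ext x
    rw [MonoidAlgebra.coeff_smul, MonoidAlgebra.coeff_smul, Finsupp.smul_apply,
      Finsupp.smul_apply, smul_eq_mul, Complex.real_smul]
  · rw [Matrix.one_apply_ne h, if_neg h, smul_zero]

end reg

theorem UTR : UTR_stmt := by
  intro G _ D P K hSA hU hK
  have hherm : ∀ i j γ, (P i j).coeff γ = star ((P j i).coeff γ⁻¹) := by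
    intro i j γ
    rw [← ADJ_coeff, hSA j i]
  have hform : ∀ e : Fin D → MonoidAlgebra ℂ G,
      |(∑ i, ∑ j, ip (e i) (P i j * e j)).re| ≤ K * ∑ i, l2 (e i) ^ 2 := by
    intro e
    have h1 := hU (L1G.L2 G) (UTR_reg G) (fun i => UTR_vec (e i))
    simp only [UTR_rep, UTR_inner, UTR_norm] at h1
    exact h1
  refine ⟨hform, fun hneg => ?_⟩
  have hP := SCM_P_herm (UTR_m P) K hherm
  have hIP : ∀ e : Fin D → MonoidAlgebra ℂ G, (SCM_IP e ((SCM_P (UTR_m P) K).mulVec e)).re =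
      (∑ i, ∑ j, ip (e i) (P i j * e j)).re + K * SCM_N e := by
    intro e
    have h9 := SCM_P_IP (UTR_m P) K e e
    rw [h9, SCM_N_eq, Complex.add_re, Complex.re_ofReal_mul]
    rfl
  have h0 : ∀ e : Fin D → MonoidAlgebra ℂ G, 0 ≤ (SCM_IP e ((SCM_P (UTR_m P) K).mulVec e)).re := by
    intro e
    rw [hIP]
    have h1 := (abs_le.mp (hform e)).1
    have h2 : SCM_N e = ∑ i, l2 (e i) ^ 2 := rfl
    rw [h2]
    linarith
  have h1 : ∀ ε : ℝ, 0 < ε → ∀ e : Fin D → MonoidAlgebra ℂ G,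
      (SCM_IP e ((SCM_P (UTR_m P) K).mulVec e)).re ≤ (K + ε) * SCM_N e := by
    intro ε hε e
    rw [hIP]
    have h2 := hneg e
    have h3 := mul_nonneg hε.le (SCM_N_nonneg e)
    nlinarith
  refine ⟨?_, ?_, ?_⟩
  · intro u
    rw [UTR_P]
    have h2 : ∀ ε : ℝ, 0 < ε → SCM_N ((SCM_P (UTR_m P) K).mulVec u) ≤ (K + ε) ^ 2 * SCM_N u :=
      fun ε hε => SCM_contr (SCM_P (UTR_m P) K) (K + ε) (by linarith) hP h0 (h1 ε hε) u
    have h3 : SCM_N ((SCM_P (UTR_m P) K).mulVec u) ≤ K ^ 2 * SCM_N u := by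
      have h4 : Tendsto (fun ε : ℝ => (K + ε) ^ 2 * SCM_N u) (𝓝[>] 0) (𝓝 (K ^ 2 * SCM_N u)) := by
        have h5 : Continuous fun ε : ℝ => (K + ε) ^ 2 * SCM_N u := by fun_prop
        have h6 := (h5.tendsto 0).mono_left (nhdsWithin_le_nhds (s := Set.Ioi 0))
        rw [add_zero] at h6
        exact h6
      exact ge_of_tendsto h4 (eventually_nhdsWithin_of_forall fun ε hε => h2 ε hε)
    exact h3
  · intro i j
    rw [UTR_P]
    ext γ
    rw [ADJ_coeff, ← hP j i γ]
  · intro V _ _ _ ρ v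
    rw [UTR_P]
    have h2 : ∀ i j, inner ℂ (v i) (rep ρ (SCM_P (UTR_m P) K i j) (v j)) =
        inner ℂ (v i) (rep ρ (P i j) (v j)) + if i = j then (K : ℂ) * inner ℂ (v i) (v j) else 0 := by
      intro i j
      have h3 : rep ρ (SCM_P (UTR_m P) K i j) =
          rep ρ (P i j) + if i = j then (K : ℂ) • (1 : V →L[ℂ] V) else 0 := by
        rw [SCM_rep_eq, SCM_rep_eq]
        unfold SCM_P
        rw [map_add]
        by_cases hij : i = j
        · rw [if_pos hij, if_pos hij, map_smul, map_one]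
          rfl
        · rw [if_neg hij, if_neg hij, map_zero]
          rfl
      rw [h3]
      by_cases hij : i = j
      · rw [if_pos hij, if_pos hij, add_apply, inner_add_right]
        congr 1
        exact inner_smul_right _ _ _
      · rw [if_neg hij, if_neg hij, add_zero, add_zero]
    have h4 : (∑ i, ∑ j, inner ℂ (v i) (rep ρ (SCM_P (UTR_m P) K i j) (v j))) =
        (∑ i, ∑ j, inner ℂ (v i) (rep ρ (P i j) (v j))) +
          ((K * ∑ i, ‖v i‖ ^ 2 : ℝ) : ℂ) := by
      rw [Complex.ofReal_mul, Complex.ofReal_sum, Finset.mul_sum, ← Finset.sum_add_distrib]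
      apply Finset.sum_congr rfl
      intro i _
      rw [Finset.sum_congr rfl (fun j _ => h2 i j), Finset.sum_add_distrib, Finset.sum_ite_eq,
        if_pos (Finset.mem_univ i), inner_self_eq_norm_sq_to_K, Complex.ofReal_pow]
      rfl
    rw [h4, Complex.add_re, Complex.ofReal_re]
    have h5 := hU V ρ v
    have h6 : 0 ≤ K * ∑ i, ‖v i‖ ^ 2 := mul_nonneg hK (Finset.sum_nonneg fun i _ => sq_nonneg _)
    rw [abs_le] at h5 ⊢
    constructor <;> linarith [h5.1, h5.2]

end Pool.Agent.QX
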